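import Pool.Agent.H84.ZN.WIN

/-!
Board ct: the integers of a window with a large value near them, from the second moment.
-/

set_option autoImplicit false

namespace Pool.Agent.H47.CT

open Finset

open Classical in
/-- the second moment at well spaced points bounds the number of the integers `k` of the window
`|k - τ| ≤ H` near which some value is large -/
theorem win2 {ι : Type*} (S : Finset ι) (w : ι → ℝ) (v : ι → ℝ → ℝ) (H τ C0 A : ℝ) (E K : ℕ)
    (hw : ∀ i ∈ S, 0 ≤ w i) (hv : ∀ i u, 0 ≤ v i u) (hH : 1 ≤ H) (hC : 0 ≤ C0) (hA : 0 < A)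
    (hE : E + 2 ≤ 4 * K)
    (h : ∀ R : ℝ, 1 ≤ R → ∀ J : ι → Finset ℝ,
      (∀ i, ∀ a ∈ J i, ∀ b ∈ J i, a ≠ b → 1 ≤ |a - b|) → (∀ i, ∀ t ∈ J i, |t - τ| ≤ R * H) →
      ∑ i ∈ S, w i * ∑ t ∈ J i, v i t ^ 2 ≤ C0 * R ^ E) :
    ∑ i ∈ S, w i * (((Finset.Icc ⌈τ - H⌉ ⌊τ + H⌋ : Finset ℤ).filter
      (fun k : ℤ => ∃ u : ℝ, A * (1 + |u - k|) ^ (2 * K) < v i u)).card : ℝ) ≤
      2 ^ (3 * E + 3) * C0 / A ^ 2 := by
  obtain ⟨n, hn⟩ : ∃ n : ℤ, n = ⌊τ⌋ := ⟨_, rfl⟩
  have hn1 : (n : ℝ) ≤ τ := by rw [hn]; exact Int.floor_le τ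
  have hn2 : τ < (n : ℝ) + 1 := by rw [hn]; exact Int.lt_floor_add_one τ
  have hA2 : 0 < Real.sqrt A := Real.sqrt_pos.2 hA
  have h1 := Pool.Agent.H84.ZN.win S w (fun i u => Real.sqrt (v i (u + n))) (H + 1) (4 ^ E * C0)
    (Real.sqrt A) E K hw (fun i u => Real.sqrt_nonneg _) (by linarith) (by positivity) hA2 hE (by
      intro R hR J hJ hJR
      have e : ∀ x : ℝ, 0 ≤ x → Real.sqrt x ^ 4 = x ^ 2 := by
        intro x hx
        rw [show (4 : ℕ) = 2 * 2 by norm_num, pow_mul, Real.sq_sqrt hx]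
      have h2 := h (4 * R) (by linarith) (fun i => (J i).map (addRightEmbedding (n : ℝ))) (by
        intro i a ha b hb hab
        rw [Finset.mem_map] at ha hb
        obtain ⟨a', ha', rfl⟩ := ha
        obtain ⟨b', hb', rfl⟩ := hb
        have h3 : a' ≠ b' := fun h => hab (by rw [h])
        simp only [addRightEmbedding_apply]
        rw [show a' + (n : ℝ) - (b' + n) = a' - b' by ring]
        exact hJ i a' ha' b' hb' h3) (by
        intro i t ht
        rw [Finset.mem_map] at ht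
        obtain ⟨t', ht', rfl⟩ := ht
        simp only [addRightEmbedding_apply]
        have h3 := hJR i t' ht'
        rw [abs_le] at h3 ⊢
        constructor
        · nlinarith
        · nlinarith)
      simp only [Finset.sum_map, addRightEmbedding_apply] at h2
      calc ∑ i ∈ S, w i * ∑ t ∈ J i, Real.sqrt (v i (t + n)) ^ 4 =
          ∑ i ∈ S, w i * ∑ t ∈ J i, v i (t + n) ^ 2 := by
            refine Finset.sum_congr rfl (fun i _ => ?_)
            congr 1
            exact Finset.sum_congr rfl (fun t _ => e _ (hv i _))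
        _ ≤ C0 * (4 * R) ^ E := h2
        _ = 4 ^ E * C0 * R ^ E := by rw [mul_pow]; ring)
  have h4 : 2 ^ (E + 3) * (4 ^ E * C0) / Real.sqrt A ^ 4 = 2 ^ (3 * E + 3) * C0 / A ^ 2 := by
    have h5 : Real.sqrt A ^ 4 = A ^ 2 := by
      rw [show (4 : ℕ) = 2 * 2 by norm_num, pow_mul, Real.sq_sqrt hA.le]
    rw [h5, show (4 : ℝ) = 2 ^ 2 by norm_num, ← pow_mul]
    ring
  rw [h4] at h1
  refine le_trans ?_ h1
  refine Finset.sum_le_sum (fun i hi => mul_le_mul_of_nonneg_left ?_ (hw i hi))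
  have h6 : (((Finset.Icc ⌈τ - H⌉ ⌊τ + H⌋ : Finset ℤ).filter
      (fun k : ℤ => ∃ u : ℝ, A * (1 + |u - k|) ^ (2 * K) < v i u)).card : ℕ) ≤
      ((Finset.Icc (-⌊H + 1⌋) ⌊H + 1⌋ : Finset ℤ).filter
      (fun k : ℤ => ∃ u : ℝ, Real.sqrt A * (1 + |u - k|) ^ K < Real.sqrt (v i (u + n)))).card := by
    refine Finset.card_le_card_of_injOn (fun k => k - n) ?_ (fun a _ b _ hab => by
      simpa using hab)
    intro k hk
    rw [Finset.mem_coe, Finset.mem_filter, Finset.mem_Icc, Int.ceil_le, Int.le_floor] at hk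
    obtain ⟨⟨hk1, hk2⟩, u, hu⟩ := hk
    rw [Finset.mem_coe, Finset.mem_filter, Finset.mem_Icc]
    refine ⟨⟨?_, ?_⟩, u - n, ?_⟩
    · rw [neg_le, Int.le_floor]
      push_cast
      linarith
    · rw [Int.le_floor]
      push_cast
      linarith
    · have h7 : |u - n - ((k - n : ℤ) : ℝ)| = |u - k| := by
        push_cast
        rw [show u - (n : ℝ) - (k - n) = u - k by ring]
      rw [h7, sub_add_cancel]
      refine lt_of_le_of_lt (le_of_eq ?_) (Real.sqrt_lt_sqrt (by positivity) hu)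
      rw [Real.sqrt_mul hA.le, pow_mul']
      rw [Real.sqrt_sq (by positivity)]
  exact_mod_cast h6

end Pool.Agent.H47.CT
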