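import Pool.Agent.H31.CT.All
import Pool.Agent.H34.ZN.All
import Pool.Agent.H47.CT.WIN2

/-!
Board ct: the second moment and the zeros of the twisted L-functions in a window, one level.
-/

set_option autoImplicit false

namespace Pool.Agent.H47.CT

open MeasureTheory Pool.Agent.H27.L1.H34.GM Pool.Agent.H27.L1.H34.GZ Pool.Agent.H27.L1.H34.GU
  Pool.Agent.H27.L1.H34.GA
open Pool.Agent.H27.L1.H68.GHY Pool.Agent.H27.L1.H34.GHY Pool.Agent.H27.L1.H34.GZZ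
open Pool.Agent.H27.L1.H68.GHK (ip rt Hn OrS)
open Pool.Agent.H31.CT (Q3 Tw)

/-- `L` has more than `b` zeros, counted with multiplicity, with real part at least `1/2 + d` and with
imaginary part within `1` of `t` -/
def MZ (L : ℂ → ℂ) (d t b : ℝ) : Prop :=
  ∃ Z : Finset ℂ, (∀ ρ ∈ Z, 1 / 2 + d ≤ ρ.re ∧ |ρ.im - t| ≤ 1) ∧
    b < ∑ ρ ∈ Z, (analyticOrderNatAt L ρ : ℝ)

/-- change of the scale -/
theorem Q3_scale {m N : ℕ} {B0 H U R : ℝ} (hB0 : 1 ≤ B0) (hH : 1 ≤ H) (hU : 1 ≤ U) (hR : 1 ≤ R) :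
    Q3 m N B0 (R * H) (R * U) ≤ R ^ (m ^ 2) * Q3 m N B0 H U := by
  have hR0 : 0 < R := by linarith
  unfold Q3
  rw [mul_add]
  refine add_le_add (le_of_eq (by rw [mul_pow]; ring)) ?_
  rw [Real.mul_rpow hR0.le (by linarith)]
  have h1 : R ^ ((m : ℝ) ^ 2 / 2) ≤ R ^ (m ^ 2) := by
    rw [← Real.rpow_natCast R (m ^ 2)]
    refine Real.rpow_le_rpow_of_exponent_le hR ?_
    push_cast
    have : 0 ≤ (m : ℝ) ^ 2 := by positivity
    linarith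
  have h2 : 0 ≤ B0 ^ ((m : ℝ) / 2) * U ^ ((m : ℝ) ^ 2 / 2) := by positivity
  calc B0 ^ ((m : ℝ) / 2) * (R ^ ((m : ℝ) ^ 2 / 2) * U ^ ((m : ℝ) ^ 2 / 2)) =
      R ^ ((m : ℝ) ^ 2 / 2) * (B0 ^ ((m : ℝ) / 2) * U ^ ((m : ℝ) ^ 2 / 2)) := by ring
    _ ≤ _ := mul_le_mul_of_nonneg_right h1 h2

/-- larger Lipschitz constants -/
theorem lip_le {m N : ℕ} [NeZero N] {D : Set (V m)} {F : Mat m → VN m N → ℂ} {Q Q' : ℝ}
    (h : Lip D F Q) (h0 : 0 ≤ Q) (hQ : Q ≤ Q') : Lip D F Q' := by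
  intro w hw
  refine (h w hw).trans ?_
  have h3 : 0 ≤ sz (w - 1) := Pool.Agent.H27.L1.H84.GA.BD.sz_nn _
  gcongr

open Classical in
/-- the second moment and the zeros in a window, all the admissible weights, twisted L-functions -/
theorem zwt (m : ℕ) (hm1 : 1 ≤ m) (δ : ℝ) (hδ : 0 < δ) : ∃ B : ℝ, 0 < B ∧
    ∀ ε : ℝ, 0 < ε → ∃ C : ℝ, 0 < C ∧
    ∀ (N : ℕ) [NeZero N] (T : ℕ → Finset (ZM m)) (D : Set (V m)), SysZ m N T D →
      ∀ B0 H U : ℝ, 1 ≤ B0 → 1 ≤ H → H ≤ U → ∀ (S : Type) [Fintype S] [DecidableEq S]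
        (F : S → Mat m → VN m N → ℂ) (lam : S → ℕ → ℂ) (W : S → ℝ),
        (∀ i, CusB m N T (F i) (lam i) ∧ Lip D (F i) H) → Orthn D F → (∀ i, 0 ≤ W i) →
        (∀ i, W i ≤ 1 ∨ (∃ mu : Fin m → ℂ, EigU m N T (F i) (lam i) mu ∧
            W i ≤ Pool.Agent.H27.L1.H34.GHK.pl mu) ∨
          ((∀ j, j ≠ i → ∀ u : Mat m, u.det ≠ 0 → ip D (rt u (F i)) (F j) = 0) ∧
            W i ≤ (Hn (1 / (2 * (m : ℝ))) D (F i))⁻¹)) →
        ∀ (c : ℕ → ℂ) (M : S → ℕ) [∀ i, NeZero (M i)] (G : ∀ i, Mat m → VN m (M i) → ℂ)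
          (lamG : S → ℕ → ℂ), (∀ n, ‖c n‖ ≤ 1) → Tw m T D B0 U c lam M G lamG →
        ∃ L : S → ℂ → ℂ, (∀ i, IsL m 1 (lamG i) (L i)) ∧
          ∀ t0 : ℝ, H + |t0| ≤ U →
            (∀ J : S → Finset ℝ, (∀ i, Wsp (J i)) → (∀ i, ∀ t ∈ J i, |t - t0| ≤ H) →
              ∑ i, W i * ∑ t ∈ J i, ‖L i (1 / 2 + t * Complex.I)‖ ^ 2 ≤
                C * (((N : ℝ) * B0 * U) ^ ε * Q3 m N B0 H U)) ∧
            ∀ A : ℝ, 1 ≤ A → ∑ i, W i * (((Finset.Icc ⌈t0 - H⌉ ⌊t0 + H⌋ : Finset ℤ).filter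
              (fun k : ℤ => MZ (L i) δ k (B * (1 + Real.log A)))).card : ℝ) ≤
                C * (((N : ℝ) * B0 * U) ^ ε * Q3 m N B0 H U) / A ^ 2 := by
  obtain ⟨B, hB, hz⟩ := Pool.Agent.H34.ZN.c_ZRO m (2 * (m ^ 2 + 1)) hm1 δ hδ
  refine ⟨B, hB, ?_⟩
  intro ε hε
  obtain ⟨e, he, he0, he1, hee⟩ : ∃ e : ℝ, e = min ε 1 ∧ 0 < e ∧ e ≤ 1 ∧ e ≤ ε :=
    ⟨min ε 1, rfl, lt_min hε one_pos, min_le_right _ _, min_le_left _ _⟩
  obtain ⟨C1, hC1, h1⟩ := Pool.Agent.H31.CT.c_LVT m hm1 e he0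
  obtain ⟨C2, hC2d⟩ : ∃ C2 : ℝ, C2 = 2 ^ (3 * (m ^ 2 + 1) + 3) * C1 := ⟨_, rfl⟩
  have hC2 : 0 < C2 := by rw [hC2d]; positivity
  refine ⟨C1 + C2, by positivity, ?_⟩
  intro N _ T D hS B0 H U hB0 hH hHU S _ _ F lam W hF ho hW0 hW c M _ G lamG hc hG
  obtain ⟨L, hL, hb⟩ := h1 N T D hS B0 H U hB0 hH hHU S F lam W hF ho hW0 hW c M G lamG hc hG
  have hN1 : 1 ≤ N := by
    have := hS.two_le
    omega
  have hN1' : (1 : ℝ) ≤ N := by exact_mod_cast hN1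
  have hU1 : 1 ≤ U := hH.trans hHU
  have hZ1 : 1 ≤ (N : ℝ) * B0 * U := by
    have : 1 ≤ (N : ℝ) * B0 := one_le_mul_of_one_le_of_one_le hN1' hB0
    exact one_le_mul_of_one_le_of_one_le this hU1
  have hQ0 : 0 ≤ Q3 m N B0 H U := by unfold Q3; positivity
  have hpe : ((N : ℝ) * B0 * U) ^ e ≤ ((N : ℝ) * B0 * U) ^ ε :=
    Real.rpow_le_rpow_of_exponent_le hZ1 hee
  refine ⟨L, hL, fun t0 ht0 => ⟨fun J hJ hJH => ?_, fun A hA => ?_⟩⟩
  · refine (hb t0 J ht0 hJ hJH).trans ?_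
    calc C1 * ((N : ℝ) * B0 * U) ^ e * Q3 m N B0 H U =
        C1 * (((N : ℝ) * B0 * U) ^ e * Q3 m N B0 H U) := by ring
      _ ≤ (C1 + C2) * (((N : ℝ) * B0 * U) ^ ε * Q3 m N B0 H U) := by
          gcongr
          linarith
  · -- the second moment at the scale `R`
    have hall : ∀ R : ℝ, 1 ≤ R → ∀ J : S → Finset ℝ,
        (∀ i, ∀ a ∈ J i, ∀ b ∈ J i, a ≠ b → 1 ≤ |a - b|) →
        (∀ i, ∀ t ∈ J i, |t - t0| ≤ R * H) →
        ∑ i ∈ (Finset.univ : Finset S), W i * ∑ t ∈ J i,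
          (fun i (u : ℝ) => ‖L i (1 / 2 + u * Complex.I)‖) i t ^ 2 ≤
          (C1 * (((N : ℝ) * B0 * U) ^ ε * Q3 m N B0 H U)) * R ^ (m ^ 2 + 1) := by
      intro R hR J hJ hJR
      have hR0 : 0 < R := by linarith
      have hRH : H ≤ R * H := le_mul_of_one_le_left (by linarith) hR
      have hRU : U ≤ R * U := le_mul_of_one_le_left (by linarith) hR
      obtain ⟨L', hL', hb'⟩ := h1 N T D hS B0 (R * H) (R * U) hB0 (hH.trans hRH)
        (mul_le_mul_of_nonneg_left hHU hR0.le) S F lam W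
        (fun i => ⟨(hF i).1, lip_le (hF i).2 (by linarith) hRH⟩) ho hW0 hW c M G lamG hc
        ⟨hG.sys, fun i => ⟨(hG.form i).1, lip_le (hG.form i).2.1 (by linarith) hRU,
          (hG.form i).2.2⟩, hG.tw⟩
      have e1 : ∀ i, L i = L' i := fun i => Pool.Agent.H27.L1.H34.GHK.isl_eq (hL i) (hL' i)
      simp only [e1]
      have ht : R * H + |t0| ≤ R * U := by
        have h3 : |t0| ≤ R * |t0| := le_mul_of_one_le_left (abs_nonneg _) hR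
        calc R * H + |t0| ≤ R * H + R * |t0| := by linarith
          _ = R * (H + |t0|) := by ring
          _ ≤ R * U := mul_le_mul_of_nonneg_left ht0 hR0.le
      refine (hb' t0 J ht hJ hJR).trans ?_
      have h4 : ((N : ℝ) * B0 * (R * U)) ^ e ≤ ((N : ℝ) * B0 * U) ^ ε * R := by
        rw [show (N : ℝ) * B0 * (R * U) = ((N : ℝ) * B0 * U) * R by ring,
          Real.mul_rpow (by positivity) hR0.le]
        have h5 : R ^ e ≤ R := by
          calc R ^ e ≤ R ^ (1 : ℝ) := Real.rpow_le_rpow_of_exponent_le hR he1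
            _ = R := Real.rpow_one R
        gcongr
      have h5 : 0 ≤ Q3 m N B0 (R * H) (R * U) := by unfold Q3; positivity
      calc C1 * ((N : ℝ) * B0 * (R * U)) ^ e * Q3 m N B0 (R * H) (R * U) ≤
          C1 * (((N : ℝ) * B0 * U) ^ ε * R) * (R ^ (m ^ 2) * Q3 m N B0 H U) := by
            gcongr
            exact Q3_scale hB0 hH hU1 hR
        _ = _ := by ring
    have hwin := win2 (Finset.univ : Finset S) W
      (fun i (u : ℝ) => ‖L i (1 / 2 + u * Complex.I)‖) H t0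
      (C1 * (((N : ℝ) * B0 * U) ^ ε * Q3 m N B0 H U)) A (m ^ 2 + 1) (m ^ 2 + 1)
      (fun i _ => hW0 i) (fun i u => norm_nonneg _) hH (by positivity) (by linarith) (by nlinarith)
      hall
    have hsub : ∀ i, ((Finset.Icc ⌈t0 - H⌉ ⌊t0 + H⌋ : Finset ℤ).filter
        (fun k : ℤ => MZ (L i) δ k (B * (1 + Real.log A)))).card ≤
        ((Finset.Icc ⌈t0 - H⌉ ⌊t0 + H⌋ : Finset ℤ).filter
        (fun k : ℤ => ∃ u : ℝ, A * (1 + |u - k|) ^ (2 * (m ^ 2 + 1)) <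
          ‖L i (1 / 2 + u * Complex.I)‖)).card := by
      intro i
      refine Finset.card_le_card (fun k hk => ?_)
      rw [Finset.mem_filter] at hk ⊢
      refine ⟨hk.1, ?_⟩
      obtain ⟨Z, hZ, hZ2⟩ := hk.2
      by_contra hc'
      simp only [not_exists, not_lt] at hc'
      have hk1 := Finset.mem_Icc.1 hk.1
      rw [Int.ceil_le, Int.le_floor] at hk1
      have hkU : |(k : ℝ)| ≤ U := by
        have h6 : |(k : ℝ) - t0| ≤ H := by
          rw [abs_le]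
          constructor <;> linarith [hk1.1, hk1.2]
        have h7 := abs_add_le ((k : ℝ) - t0) t0
        rw [sub_add_cancel] at h7
        linarith
      have h8 := hz (M i) T D (hG.sys i).1 (G i) (lamG i) U (hG.form i).1 (hG.form i).2.2
        (hG.form i).2.1 hU1 (L i) (hL i) k A hkU hA hc' Z hZ
      linarith
    calc ∑ i, W i * (((Finset.Icc ⌈t0 - H⌉ ⌊t0 + H⌋ : Finset ℤ).filter
          (fun k : ℤ => MZ (L i) δ k (B * (1 + Real.log A)))).card : ℝ) ≤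
        ∑ i, W i * (((Finset.Icc ⌈t0 - H⌉ ⌊t0 + H⌋ : Finset ℤ).filter
        (fun k : ℤ => ∃ u : ℝ, A * (1 + |u - k|) ^ (2 * (m ^ 2 + 1)) <
          ‖L i (1 / 2 + u * Complex.I)‖)).card : ℝ) :=
          Finset.sum_le_sum (fun i _ => mul_le_mul_of_nonneg_left (by exact_mod_cast hsub i)
            (hW0 i))
      _ ≤ 2 ^ (3 * (m ^ 2 + 1) + 3) * (C1 * (((N : ℝ) * B0 * U) ^ ε * Q3 m N B0 H U)) / A ^ 2 :=
          hwin
      _ = C2 * (((N : ℝ) * B0 * U) ^ ε * Q3 m N B0 H U) / A ^ 2 := by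
          rw [hC2d]
          ring
      _ ≤ _ := by
          gcongr
          linarith

end Pool.Agent.H47.CT
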